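import Pool.Agent.D0H39.NL.Stm

set_option autoImplicit false

open Set Filter Topology Metric Function
open scoped ContDiff RealInnerProductSpace

noncomputable section

namespace Pool.Agent.D0H23.NL

open Pool.Agent.D0H39.NL

variable {n : ℕ}

lemma ip_PQ {P : E n →L[ℝ] E n} (hP : IsProj P) (a b : E n) : ⟪P a, b - P b⟫ = 0 := by
  rw [hP.2, map_sub, hP.1, sub_self, inner_zero_right]

lemma ip_QP {P : E n →L[ℝ] E n} (hP : IsProj P) (a b : E n) : ⟪b - P b, P a⟫ = 0 := by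
  rw [real_inner_comm, ip_PQ hP]

lemma norm_P_le {P : E n →L[ℝ] E n} (hP : IsProj P) (a : E n) : ‖P a‖ ≤ ‖a‖ := by
  have h : ⟪P a, a⟫ = ‖P a‖ ^ 2 := by
    rw [← real_inner_self_eq_norm_sq, hP.2, hP.2, hP.1]
  have h2 := real_inner_le_norm (P a) a
  rw [h, sq] at h2
  by_contra hlt
  push Not at hlt
  have : 0 < ‖P a‖ := lt_of_le_of_lt (norm_nonneg _) hlt
  nlinarith [norm_nonneg a]

lemma norm_Q_le {P : E n →L[ℝ] E n} (hP : IsProj P) (a : E n) : ‖a - P a‖ ≤ ‖a‖ := by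
  have h : ⟪a - P a, a⟫ = ‖a - P a‖ ^ 2 := by
    have h1 : a = (a - P a) + P a := by abel
    rw [← real_inner_self_eq_norm_sq]
    conv_lhs => rw [h1]
    rw [inner_add_right]
    have h2 : (a - P a + P a) = a := by abel
    rw [h2, ip_QP hP, add_zero]
  have h2 := real_inner_le_norm (a - P a) a
  rw [h, sq] at h2
  by_contra hlt
  push Not at hlt
  have : 0 < ‖a - P a‖ := lt_of_le_of_lt (norm_nonneg _) hlt
  nlinarith [norm_nonneg a]

/-- the inner product of the differences of the points of the graph -/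
lemma ip_diff {P : E n →L[ℝ] E n} (hP : IsProj P) (x x' y y' : E n) :
    ⟪(mk P x y).1 - (mk P x' y').1, (mk P x y).2 - (mk P x' y').2⟫ =
      ⟪(x - x' - P (x - x')) - P (x - x'), y - y'⟫ := by
  have e1 : (mk P x y).1 - (mk P x' y').1 = (x - x' - P (x - x')) - P (y - y') := by
    simp only [D0H39.NL.mk, map_sub]; abel
  have e2 : (mk P x y).2 - (mk P x' y').2 = P (x - x') + ((y - y') - P (y - y')) := by
    simp only [D0H39.NL.mk, map_sub]; abel
  rw [e1, e2]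
  generalize x - x' = D
  generalize y - y' = F
  rw [inner_sub_left, inner_add_right, inner_add_right, ip_QP hP, ip_PQ hP, zero_add, add_zero]
  have e3 : ⟪D - P D, F - P F⟫ = ⟪D - P D, F⟫ := by
    rw [inner_sub_right, ip_QP hP, sub_zero]
  have e4 : ⟪P F, P D⟫ = ⟪P D, F⟫ := by
    rw [hP.2, hP.1, real_inner_comm]
  rw [e3, e4, inner_sub_left (D - P D), inner_sub_left D]

/-- the norm of the first difference -/
lemma norm_first {P : E n →L[ℝ] E n} (hP : IsProj P) (x x' y y' : E n) :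
    ‖(mk P x y).1 - (mk P x' y').1‖ ^ 2 = ‖x - x' - P (x - x')‖ ^ 2 + ‖P (y - y')‖ ^ 2 := by
  have e1 : (mk P x y).1 - (mk P x' y').1 = (x - x' - P (x - x')) - P (y - y') := by
    simp only [D0H39.NL.mk, map_sub]; abel
  rw [e1]
  have h := @norm_sub_sq_real (E n) _ _ (x - x' - P (x - x')) (P (y - y'))
  rw [ip_QP hP] at h
  linarith

lemma norm_y_le {P : E n →L[ℝ] E n} (hP : IsProj P) (x x' y y' : E n) :
    ‖x - x' - P (x - x')‖ ≤ ‖(mk P x y).1 - (mk P x' y').1‖ := by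
  have h := norm_first hP x x' y y'
  exact le_of_sq_le_sq (by nlinarith [sq_nonneg ‖P (y - y')‖]) (norm_nonneg _)

lemma norm_PF_le {P : E n →L[ℝ] E n} (hP : IsProj P) (x x' y y' : E n) :
    ‖P (y - y')‖ ≤ ‖(mk P x y).1 - (mk P x' y').1‖ := by
  have h := norm_first hP x x' y y'
  exact le_of_sq_le_sq (by nlinarith [sq_nonneg ‖x - x' - P (x - x')‖]) (norm_nonneg _)

lemma seg_mem {c x x' : E n} {ρ : ℝ} (hx : x ∈ ball c ρ) (hx' : x' ∈ ball c ρ) {s : ℝ}
    (h0 : 0 ≤ s) (h1 : s ≤ 1) : x' + s • (x - x') ∈ ball c ρ :=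
  (convex_ball c ρ).add_smul_sub_mem hx' hx ⟨h0, h1⟩

/-- the derivative of `η` along a segment -/
lemma hasDeriv_seg {η : E n → E n} {c : E n} {ρ : ℝ} (hs : ContDiffOn ℝ ∞ η (ball c ρ))
    {x' D : E n} {s : ℝ} (hm : x' + s • D ∈ ball c ρ) :
    HasDerivAt (fun t : ℝ => η (x' + t • D)) (fderiv ℝ η (x' + s • D) D) s := by
  have h1 : DifferentiableAt ℝ η (x' + s • D) :=
    (hs.contDiffAt (isOpen_ball.mem_nhds hm)).differentiableAt (by norm_num)
  have h2 : HasDerivAt (fun t : ℝ => x' + t • D) D s := by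
    have := ((hasDerivAt_id s).smul_const D).const_add x'
    simpa using this
  exact h1.hasFDerivAt.comp_hasDerivAt s h2

lemma hasDeriv_ip {η : E n → E n} {c : E n} {ρ : ℝ} (hs : ContDiffOn ℝ ∞ η (ball c ρ))
    {x' D u : E n} {s : ℝ} (hm : x' + s • D ∈ ball c ρ) :
    HasDerivAt (fun t : ℝ => ⟪u, η (x' + t • D)⟫) ⟪u, fderiv ℝ η (x' + s • D) D⟫ s := by
  have h := (hasDerivAt_const s u).inner ℝ (hasDeriv_seg hs hm)
  simpa using h

/-- mean value theorem -/
lemma mvt_ge {g g' : ℝ → ℝ} {c : ℝ} (h : ∀ s ∈ Icc (0 : ℝ) 1, HasDerivAt g (g' s) s)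
    (hc : ∀ s ∈ Icc (0 : ℝ) 1, c ≤ g' s) : c ≤ g 1 - g 0 := by
  have h1 := (convex_Icc (0 : ℝ) 1).mul_sub_le_image_sub_of_le_deriv (f := g) (C := c)
    (fun s hs => (h s hs).continuousAt.continuousWithinAt)
    (fun s hs => (h s (interior_subset hs)).differentiableAt.differentiableWithinAt)
    (fun s hs => by rw [(h s (interior_subset hs)).deriv]; exact hc s (interior_subset hs))
    0 (by simp) 1 (by simp) zero_le_one
  linarith

theorem t_PAIR : S_PAIR := by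
  intro n Λ z P η ρ r ε M G
  have hP := G.chart.proj
  have hM : 0 ≤ M := le_trans (norm_nonneg _) (G.bound (chi P z) (mem_ball_self G.chart.hρ))
  refine ⟨M, r, hM, G.chart.hr, ?_⟩
  intro w hw w' hw' hwz hwz'
  obtain ⟨hx, hwx⟩ := G.chart.cover w hw hwz
  obtain ⟨hx', hwx'⟩ := G.chart.cover w' hw' hwz'
  set x := chi P w with hxd
  set x' := chi P w' with hxd'
  have key := ip_diff hP x x' (η x) (η x')
  have ny := norm_y_le hP x x' (η x) (η x')
  rw [hwx, hwx'] at key ny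
  rw [key]
  set D := x - x' with hD
  set y := D - P D with hy
  have hmem : ∀ s ∈ Icc (0 : ℝ) 1, x' + s • D ∈ ball (chi P z) ρ := fun s hs =>
    seg_mem hx hx' hs.1 hs.2
  have hder : ∀ s ∈ Icc (0 : ℝ) 1, HasDerivAt (fun t : ℝ => ε * ⟪y - P D, η (x' + t • D)⟫)
      (ε * ⟪y - P D, fderiv ℝ η (x' + s • D) D⟫) s := fun s hs =>
    (hasDeriv_ip G.chart.smooth (hmem s hs)).const_mul ε
  have hlow : ∀ s ∈ Icc (0 : ℝ) 1, -(M * ‖y‖ ^ 2) ≤ ε * ⟪y - P D, fderiv ℝ η (x' + s • D) D⟫ := by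
    intro s hs
    have hm := hmem s hs
    set A := fderiv ℝ η (x' + s • D) with hA
    have hDy : D = y + P D := by rw [hy]; abel
    have e : ⟪y - P D, A D⟫ = ⟪y, A y⟫ - ⟪P D, A (P D)⟫ := by
      have e0 : A D = A y + A (P D) := by
        rw [← map_add, ← hDy]
      have e1 : ⟪y, A (P D)⟫ = ⟪P D, A y⟫ := by
        rw [real_inner_comm (A y) (P D)]
        exact (G.chart.symm _ hm y (P D)).symm
      rw [e0, inner_sub_left, inner_add_right, inner_add_right, e1]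
      ring
    rw [e]
    have h1 := G.sign _ hm (P D) (hP.1 D)
    have h2 : |⟪y, A y⟫| ≤ M * ‖y‖ ^ 2 := by
      refine (abs_real_inner_le_norm _ _).trans ?_
      have h3 := (A.le_opNorm y).trans (mul_le_mul_of_nonneg_right (G.bound _ hm) (norm_nonneg y))
      nlinarith [norm_nonneg y]
    have h4 : -(M * ‖y‖ ^ 2) ≤ ε * ⟪y, A y⟫ := by
      rcases G.eps with h | h <;> rw [h]
      · linarith [(abs_le.1 h2).1]
      · linarith [(abs_le.1 h2).2]
    have h5 : ε * (⟪y, A y⟫ - ⟪P D, A (P D)⟫) = ε * ⟪y, A y⟫ + ε * -⟪P D, A (P D)⟫ := by ring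
    rw [h5]
    linarith
  have h := mvt_ge hder hlow
  have e1 : x' + (1 : ℝ) • D = x := by rw [one_smul, hD]; abel
  have e0 : x' + (0 : ℝ) • D = x' := by rw [zero_smul, add_zero]
  simp only [e1, e0] at h
  have h6 : ε * ⟪y - P D, η x - η x'⟫ = ε * ⟪y - P D, η x⟫ - ε * ⟪y - P D, η x'⟫ := by
    rw [inner_sub_right]; ring
  rw [h6]
  have h7 : M * ‖y‖ ^ 2 ≤ M * ‖w.1 - w'.1‖ ^ 2 :=
    mul_le_mul_of_nonneg_left (pow_le_pow_left₀ (norm_nonneg _) ny 2) hM
  linarith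

end Pool.Agent.D0H23.NL
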