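import Pool.Agent.D0H23.NL.Pair

set_option autoImplicit false

open Set Filter Topology Metric Function
open scoped ContDiff RealInnerProductSpace

noncomputable section

namespace Pool.Agent.D0H23.NL

open Pool.Agent.D0H39.NL

variable {n : ℕ}

lemma norm_chi_sub {P : E n →L[ℝ] E n} (hP : IsProj P) (w z : E n × E n) :
    ‖chi P w - chi P z‖ ≤ 2 * ‖w - z‖ := by
  have e : chi P w - chi P z = ((w.1 - z.1) - P (w.1 - z.1)) + P (w.2 - z.2) := by
    simp only [chi, map_sub]; abel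
  rw [e]
  have h1 := norm_Q_le hP (w.1 - z.1)
  have h2 := norm_P_le hP (w.2 - z.2)
  have h3 : ‖w.1 - z.1‖ ≤ ‖w - z‖ := norm_fst_le (w - z)
  have h4 : ‖w.2 - z.2‖ ≤ ‖w - z‖ := norm_snd_le (w - z)
  have h5 := norm_add_le ((w.1 - z.1) - P (w.1 - z.1)) (P (w.2 - z.2))
  linarith

/-- the curve in `Λ` over a segment -/
lemma hasDeriv_fst {P : E n →L[ℝ] E n} {η : E n → E n} {c : E n} {ρ : ℝ}
    (hs : ContDiffOn ℝ ∞ η (ball c ρ)) {x' D : E n} {s : ℝ} (hm : x' + s • D ∈ ball c ρ) :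
    HasDerivAt (fun t : ℝ => (D0H39.NL.mk P (x' + t • D) (η (x' + t • D))).1)
      (D - P D - P (fderiv ℝ η (x' + s • D) D)) s := by
  have h2 : HasDerivAt (fun t : ℝ => x' + t • D) D s := by
    have := ((hasDerivAt_id s).smul_const D).const_add x'
    simpa using this
  have h3 := P.hasFDerivAt.comp_hasDerivAt s h2
  have h4 := P.hasFDerivAt.comp_hasDerivAt s (hasDeriv_seg hs hm)
  exact (h2.sub h3).sub h4

lemma hasDeriv_snd {P : E n →L[ℝ] E n} {η : E n → E n} {c : E n} {ρ : ℝ}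
    (hs : ContDiffOn ℝ ∞ η (ball c ρ)) {x' D : E n} {s : ℝ} (hm : x' + s • D ∈ ball c ρ) :
    HasDerivAt (fun t : ℝ => (D0H39.NL.mk P (x' + t • D) (η (x' + t • D))).2)
      (P D + (fderiv ℝ η (x' + s • D) D - P (fderiv ℝ η (x' + s • D) D))) s := by
  have h2 : HasDerivAt (fun t : ℝ => x' + t • D) D s := by
    have := ((hasDerivAt_id s).smul_const D).const_add x'
    simpa using this
  have h3 := P.hasFDerivAt.comp_hasDerivAt s h2
  have h5 := hasDeriv_seg hs hm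
  have h4 := P.hasFDerivAt.comp_hasDerivAt s h5
  exact h3.add (h5.sub h4)

lemma curve_contDiffAt {P : E n →L[ℝ] E n} {η : E n → E n} {c : E n} {ρ : ℝ}
    (hs : ContDiffOn ℝ ∞ η (ball c ρ)) {x' D : E n} {s : ℝ} (hm : x' + s • D ∈ ball c ρ) :
    ContDiffAt ℝ ∞ (fun t : ℝ => D0H39.NL.mk P (x' + t • D) (η (x' + t • D))) s := by
  have h0 : ContDiffAt ℝ ∞ (fun t : ℝ => x' + t • D) s :=
    contDiffAt_const.add (contDiffAt_id.smul contDiffAt_const)
  have h1 : ContDiffAt ℝ ∞ (fun t : ℝ => η (x' + t • D)) s :=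
    (hs.contDiffAt (isOpen_ball.mem_nhds hm)).comp s h0
  have h2 : ContDiffAt ℝ ∞ (fun t : ℝ => P (x' + t • D)) s := P.contDiff.contDiffAt.comp s h0
  have h3 : ContDiffAt ℝ ∞ (fun t : ℝ => P (η (x' + t • D))) s := P.contDiff.contDiffAt.comp s h1
  exact ((h0.sub h2).sub h3).prodMk (h2.add (h1.sub h3))

lemma curve_mem {P : E n →L[ℝ] E n} {η : E n → E n} {c : E n} {ρ : ℝ} {Λ : Set (E n × E n)}
    (hmem : ∀ x ∈ ball c ρ, D0H39.NL.mk P x (η x) ∈ Λ) {x' D : E n} {s : ℝ}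
    (hm : x' + s • D ∈ ball c ρ) :
    ∀ᶠ t in 𝓝 s, D0H39.NL.mk P (x' + t • D) (η (x' + t • D)) ∈ Λ := by
  have hc : Continuous fun t : ℝ => x' + t • D := by fun_prop
  have : ∀ᶠ t in 𝓝 s, x' + t • D ∈ ball c ρ := hc.continuousAt.eventually
    (isOpen_ball.mem_nhds hm)
  exact this.mono fun t ht => hmem _ ht

theorem t_DIFF : S_DIFF := by
  intro n Λ z P η ρ r ε M f G hz hf
  have hP := G.chart.proj
  have hM : 0 ≤ M := le_trans (norm_nonneg _) (G.bound (chi P z) (mem_ball_self G.chart.hρ))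
  refine ⟨2 * (3 * M + 1), r, G.chart.hr, ?_⟩
  intro w hw hwz
  obtain ⟨hx, hwx⟩ := G.chart.cover w hw hwz
  have hx0 : chi P z ∈ ball (chi P z) ρ := mem_ball_self G.chart.hρ
  have hzx := G.chart.base
  have nD := norm_chi_sub hP w z
  set x := chi P w with hxd
  set x0 := chi P z with hxd0
  have ny := norm_y_le hP x x0 (η x) (η x0)
  have nF := norm_PF_le hP x x0 (η x) (η x0)
  rw [hwx, hzx] at ny nF
  set D := x - x0 with hD
  set y := D - P D with hy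
  have hmem : ∀ s ∈ Icc (0 : ℝ) 1, x0 + s • D ∈ ball x0 ρ := fun s hs =>
    seg_mem hx hx0 hs.1 hs.2
  have hDy : D = y + P D := by rw [hy]; abel
  have nk : ‖P D‖ ≤ ‖D‖ := norm_P_le hP D
  have hyD : ‖y‖ ≤ ‖D‖ := norm_Q_le hP D
  have hw1 : 0 ≤ ‖w.1 - z.1‖ := norm_nonneg _
  have hD0 : 0 ≤ ‖D‖ := norm_nonneg _
  have hy0 : 0 ≤ ‖y‖ := norm_nonneg _
  set W : ℝ → E n × E n := fun t => D0H39.NL.mk P (x0 + t • D) (η (x0 + t • D)) with hW
  have hW1 : W 1 = w := by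
    simp only [hW, one_smul]
    have : x0 + D = x := by rw [hD]; abel
    rw [this, hwx]
  have hW0 : W 0 = z := by
    simp only [hW, zero_smul, add_zero]
    exact hzx
  -- the function
  set th : ℝ → ℝ := fun t => f (W t) - f z - ⟪z.2, (W t).1 - z.1⟫ with hth
  have hder : ∀ s ∈ Icc (0 : ℝ) 1, HasDerivAt th
      (⟪(W s).2 - z.2, D - P D - P (fderiv ℝ η (x0 + s • D) D)⟫) s := by
    intro s hs
    have hm := hmem s hs
    have h1 := hf.2 W s (curve_contDiffAt G.chart.smooth hm) (curve_mem G.chart.mem hm)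
    have h2 : HasDerivAt (fun t : ℝ => (W t).1) (D - P D - P (fderiv ℝ η (x0 + s • D) D)) s :=
      hasDeriv_fst G.chart.smooth hm
    have h2' : (deriv W s).1 = D - P D - P (fderiv ℝ η (x0 + s • D) D) := by
      have h3 : HasDerivAt W (D - P D - P (fderiv ℝ η (x0 + s • D) D), _) s :=
        h2.prodMk (hasDeriv_snd G.chart.smooth hm)
      rw [h3.deriv]
    rw [h2'] at h1
    have h4 := (hasDerivAt_const s z.2).inner ℝ (h2.sub_const z.1)
    have h5 := (h1.sub_const (f z)).sub h4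
    refine (show HasDerivAt th _ s from h5).congr_deriv ?_
    rw [inner_zero_left, add_zero, inner_sub_left]
  have hval : ∀ s ∈ Icc (0 : ℝ) 1,
      ⟪(W s).2 - z.2, D - P D - P (fderiv ℝ η (x0 + s • D) D)⟫ =
        ⟪η (x0 + s • D) - η x0, y⟫ - s * ⟪P D, fderiv ℝ η (x0 + s • D) D⟫ := by
    intro s hs
    have e1 : (W s).2 - z.2 = s • P D + ((η (x0 + s • D) - η x0) - P (η (x0 + s • D) - η x0)) := by
      have e0 : z.2 = P x0 + (η x0 - P (η x0)) := by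
        conv_lhs => rw [← hzx]
        rfl
      rw [e0]
      simp only [hW, D0H39.NL.mk, map_add, map_sub, map_smul]
      abel
    rw [e1]
    generalize η (x0 + s • D) - η x0 = F
    generalize fderiv ℝ η (x0 + s • D) D = A
    have e2 : ⟪P D, D - P D⟫ = 0 := ip_PQ hP D D
    have e3 : ⟪F - P F, P A⟫ = 0 := ip_QP hP A F
    have e4 : ⟪P F, y⟫ = 0 := ip_PQ hP F D
    have e5 : ⟪P D, P A⟫ = ⟪P D, A⟫ := by rw [← hP.2, hP.1]
    rw [inner_add_left, inner_sub_right (s • P D), inner_smul_left, inner_smul_left, e2, e5,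
      inner_sub_right (F - P F), e3, inner_sub_left F (P F) (D - P D)]
    have e6 : ⟪P F, D - P D⟫ = 0 := e4
    rw [e6]
    simp only [conj_trivial]
    ring
  have hF : ∀ s ∈ Icc (0 : ℝ) 1, ‖η (x0 + s • D) - η x0‖ ≤ M * ‖D‖ := by
    intro s hs
    have h1 := (convex_ball x0 ρ).norm_image_sub_le_of_norm_fderiv_le (𝕜 := ℝ) (f := η) (C := M)
      (fun v hv => (G.chart.smooth.contDiffAt (isOpen_ball.mem_nhds hv)).differentiableAt
        (by norm_num)) G.bound hx0 (hmem s hs)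
    refine h1.trans ?_
    rw [add_sub_cancel_left, norm_smul, Real.norm_of_nonneg hs.1]
    have : s * ‖D‖ ≤ 1 * ‖D‖ := mul_le_mul_of_nonneg_right hs.2 hD0
    rw [one_mul] at this
    exact mul_le_mul_of_nonneg_left this hM
  -- pieces
  have heps : ε * ε = 1 := by rcases G.eps with h | h <;> rw [h] <;> norm_num
  have habs : ∀ a b : ℝ, |a| ≤ b → |ε * a| ≤ b := by
    intro a b h
    rcases G.eps with h' | h' <;> rw [h']
    · rwa [one_mul]
    · rwa [neg_one_mul, abs_neg]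
  have pc : ∀ s ∈ Icc (0 : ℝ) 1,
      |ε * ⟪η (x0 + s • D) - η x0, y⟫| ≤ M * ‖D‖ * ‖y‖ ∧
      |ε * ⟪P D, fderiv ℝ η (x0 + s • D) y⟫| ≤ M * ‖D‖ * ‖y‖ ∧
      0 ≤ ε * -⟪P D, fderiv ℝ η (x0 + s • D) (P D)⟫ ∧
      ⟪P D, fderiv ℝ η (x0 + s • D) D⟫ = ⟪P D, fderiv ℝ η (x0 + s • D) y⟫ +
        ⟪P D, fderiv ℝ η (x0 + s • D) (P D)⟫ := by
    intro s hs
    refine ⟨habs _ _ ?_, habs _ _ ?_, G.sign _ (hmem s hs) _ (hP.1 D), ?_⟩
    · exact (abs_real_inner_le_norm _ _).trans (mul_le_mul_of_nonneg_right (hF s hs) hy0)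
    · refine (abs_real_inner_le_norm _ _).trans ?_
      have h3 := ((fderiv ℝ η (x0 + s • D)).le_opNorm y).trans
        (mul_le_mul_of_nonneg_right (G.bound _ (hmem s hs)) hy0)
      calc ‖P D‖ * ‖fderiv ℝ η (x0 + s • D) y‖ ≤ ‖D‖ * (M * ‖y‖) :=
            mul_le_mul nk h3 (norm_nonneg _) hD0
        _ = M * ‖D‖ * ‖y‖ := by ring
    · rw [← inner_add_right, ← map_add, ← hDy]
  -- lower bound
  have hlow := mvt_ge (g := fun t => ε * th t) (c := -(2 * (M * ‖D‖ * ‖y‖)))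
    (fun s hs => (hder s hs).const_mul ε) (fun s hs => by
      rw [hval s hs]
      obtain ⟨p1, p2, p3, p4⟩ := pc s hs
      rw [p4]
      obtain ⟨q1, q1'⟩ := abs_le.1 p1
      obtain ⟨q2, q2'⟩ := abs_le.1 p2
      have hK : 0 ≤ M * ‖D‖ * ‖y‖ := by positivity
      have e : ε * (⟪η (x0 + s • D) - η x0, y⟫ - s * (⟪P D, fderiv ℝ η (x0 + s • D) y⟫ +
          ⟪P D, fderiv ℝ η (x0 + s • D) (P D)⟫)) =
          ε * ⟪η (x0 + s • D) - η x0, y⟫ - s * (ε * ⟪P D, fderiv ℝ η (x0 + s • D) y⟫) +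
          s * (ε * -⟪P D, fderiv ℝ η (x0 + s • D) (P D)⟫) := by ring
      rw [e]
      have h1 : s * (ε * ⟪P D, fderiv ℝ η (x0 + s • D) y⟫) ≤ M * ‖D‖ * ‖y‖ := by
        have := mul_le_mul_of_nonneg_left q2' hs.1
        nlinarith [hs.2]
      have h2 := mul_nonneg hs.1 p3
      linarith)
  -- upper bound
  have hup := mvt_ge (g := fun t => -(ε * th t) + -(ε * ⟪P D, η (x0 + t • D)⟫))
    (c := -(3 * (M * ‖D‖ * ‖y‖)))
    (fun s hs => ((hder s hs).const_mul ε).neg.add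
      ((hasDeriv_ip G.chart.smooth (hmem s hs)).const_mul ε).neg) (fun s hs => by
      rw [hval s hs]
      obtain ⟨p1, p2, p3, p4⟩ := pc s hs
      rw [p4]
      obtain ⟨q1, q1'⟩ := abs_le.1 p1
      obtain ⟨q2, q2'⟩ := abs_le.1 p2
      have hK : 0 ≤ M * ‖D‖ * ‖y‖ := by positivity
      set a := ε * ⟪η (x0 + s • D) - η x0, y⟫ with ha
      set b := ε * ⟪P D, fderiv ℝ η (x0 + s • D) y⟫ with hb
      set m := ε * -⟪P D, fderiv ℝ η (x0 + s • D) (P D)⟫ with hm'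
      have e : -(ε * (⟪η (x0 + s • D) - η x0, y⟫ - s * (⟪P D, fderiv ℝ η (x0 + s • D) y⟫ +
          ⟪P D, fderiv ℝ η (x0 + s • D) (P D)⟫))) + -(ε * (⟪P D, fderiv ℝ η (x0 + s • D) y⟫ +
          ⟪P D, fderiv ℝ η (x0 + s • D) (P D)⟫)) = -a - (1 - s) * b + (1 - s) * m := by
        rw [ha, hb, hm']; ring
      rw [e]
      have h1 : (1 - s) * b ≤ M * ‖D‖ * ‖y‖ := by
        have := mul_le_mul_of_nonneg_left q2' (sub_nonneg.2 hs.2)
        nlinarith [hs.1]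
      have h2 := mul_nonneg (sub_nonneg.2 hs.2) p3
      linarith)
  have e1 : x0 + (1 : ℝ) • D = x := by rw [one_smul, hD]; abel
  have e0 : x0 + (0 : ℝ) • D = x0 := by rw [zero_smul, add_zero]
  have t1 : th 1 = f w - f z - ⟪z.2, w.1 - z.1⟫ := by simp only [hth, hW1]
  have t0 : th 0 = 0 := by simp only [hth, hW0, sub_self, inner_zero_right]
  simp only [t0, mul_zero, sub_zero, e1, e0, neg_zero, zero_add] at hlow hup
  rw [← t1]
  have hPF : |ε * ⟪P D, η x - η x0⟫| ≤ ‖D‖ * ‖w.1 - z.1‖ := by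
    refine habs _ _ ?_
    have h1 : ⟪P D, η x - η x0⟫ = ⟪P D, P (η x - η x0)⟫ := by rw [← hP.2, hP.1]
    rw [h1]
    exact (abs_real_inner_le_norm _ _).trans (mul_le_mul nk nF (norm_nonneg _) hD0)
  rw [inner_sub_right, mul_sub] at hPF
  obtain ⟨u1, u2⟩ := abs_le.1 hPF
  have hK : M * ‖D‖ * ‖y‖ ≤ M * (‖D‖ * ‖w.1 - z.1‖) := by
    have := mul_le_mul_of_nonneg_left ny (mul_nonneg hM hD0)
    linarith
  have hDw : 0 ≤ ‖D‖ * ‖w.1 - z.1‖ := mul_nonneg hD0 hw1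
  have hfin : |ε * th 1| ≤ (3 * M + 1) * (‖D‖ * ‖w.1 - z.1‖) := by
    have e5 : (3 * M + 1) * (‖D‖ * ‖w.1 - z.1‖) = 3 * (M * (‖D‖ * ‖w.1 - z.1‖)) +
        ‖D‖ * ‖w.1 - z.1‖ := by ring
    have hMV : 0 ≤ M * (‖D‖ * ‖w.1 - z.1‖) := mul_nonneg hM hDw
    rw [e5, abs_le]
    generalize M * (‖D‖ * ‖w.1 - z.1‖) = V at *
    generalize ‖D‖ * ‖w.1 - z.1‖ = U at *
    generalize M * ‖D‖ * ‖y‖ = K at *
    generalize ε * th 1 = T at *
    generalize ε * ⟪P D, η x⟫ = T1 at *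
    generalize ε * ⟪P D, η x0⟫ = T2 at *
    constructor <;> linarith
  have h9 : |th 1| = |ε * th 1| := by
    rcases G.eps with h | h <;> rw [h]
    · rw [one_mul]
    · rw [neg_one_mul, abs_neg]
  rw [h9]
  refine hfin.trans ?_
  have h10 : ‖D‖ * ‖w.1 - z.1‖ ≤ 2 * ‖w - z‖ * ‖w.1 - z.1‖ := mul_le_mul_of_nonneg_right nD hw1
  have h11 : 0 ≤ 3 * M + 1 := by linarith
  calc (3 * M + 1) * (‖D‖ * ‖w.1 - z.1‖) ≤ (3 * M + 1) * (2 * ‖w - z‖ * ‖w.1 - z.1‖) :=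
        mul_le_mul_of_nonneg_left h10 h11
    _ = 2 * (3 * M + 1) * ‖w - z‖ * ‖w.1 - z.1‖ := by ring

end Pool.Agent.D0H23.NL
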